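import Pool.Agent.MP_05053e_co.Mg.Tile20

namespace Pool.Agent.Results.MP_05053e_co.ThreeSevens

open Pool.Agent.MP_05053e_co

/-- On the infinite board the second player has a legal strategy that prevents the first player
from ever owning 7 consecutive cells of a row or of a diagonal of slope 1 or -1, or 8 consecutive
cells of a column. -/
theorem result : ∃ τ : List (ℤ × ℤ) → ℤ × ℤ, ∀ p : ℕ → ℤ × ℤ,
    (∀ k : ℕ, p (2 * k + 1) = τ (List.ofFn (fun i : Fin (2 * k + 1) => p i))) →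
    (∀ k : ℕ, ∀ i < 2 * k, p i ≠ p (2 * k)) →
    (∀ k : ℕ, ∀ i < 2 * k + 1, p i ≠ p (2 * k + 1)) ∧
      ¬ ∃ x y : ℤ, ∃ d ∈ ({(1, 0), (0, 1), (1, 1), (1, -1)} : Finset (ℤ × ℤ)),
        ∀ m < (if d = (0, 1) then 8 else 7 : ℕ),
          ∃ i, Even i ∧ p i = (x + (m : ℤ) * d.1, y + (m : ℤ) * d.2) := by
  obtain ⟨τ, h⟩ := safe_plane.strategy
  refine ⟨τ, fun p h1 h2 => ⟨(h p h1 h2).1, ?_⟩⟩
  rintro ⟨x, y, d, hd, hm⟩
  refine (h p h1 h2).2 _ ⟨x, y, d, hd, rfl⟩ ((Set.finite_Iio _).image _) ?_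
  rintro _ ⟨m, h3, rfl⟩
  exact hm m h3

end Pool.Agent.Results.MP_05053e_co.ThreeSevens
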